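import Mathlib
import Pool.Agent.Helper911_PS.Stmt
import Pool.Agent.Helper911_PS.Delta
import Pool.Agent.Helper911_PS.StmtBridge
import Pool.Agent.Helper911_PS.Bridge
import Pool.Agent.Helper911_T3.Final

/-!
Q1 for `G = SL_n(Q_p)` and all continuous characters of the diagonal torus.
-/

set_option autoImplicit false

noncomputable section

open Topology Filter Pool.Agent.PSeries

namespace Pool.Agent.Results.MP_f399a8_nt.SchneiderSLn

/-- Let `C` be a finite extension of `Q_p` and `χ : Z → C^×` a continuous character of the diagonal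
torus of `SL_n(Q_p)`. If `(Ind_B^G χ)^cts` is absolutely reducible, then there are a positive root
`α = α_{ij}`, `i < j`, and an integer `a ≤ 1 - (j - i)` (so `a ≤ 0`) with
`(χ δ^{-1/2})(α^∨(x)) = x^{-1} x^a` for all `x`. -/
theorem result {p : ℕ} [Fact p.Prime] {n : ℕ} [NeZero n] {C : Type} [NormedField C]
    [NormedAlgebra ℚ_[p] C] [FiniteDimensional ℚ_[p] C] (χ : Torus p n →* Cˣ)
    (hχ : Continuous χ) (hred : AbsReducible χ) :
    ∃ (i j : Fin n) (h : i < j) (a : ℤ), a ≤ 1 - ((j : ℤ) - (i : ℤ)) ∧ ∀ x : ℚ_[p]ˣ,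
      (χ (coroot i j h.ne x) : Cˣ) *
          (algebraMap ℚ_[p] C (halfSum (coroot i j h.ne x) : ℚ_[p]ˣ))⁻¹
        = (algebraMap ℚ_[p] C (x : ℚ_[p]))⁻¹ * (algebraMap ℚ_[p] C (x : ℚ_[p])) ^ a := by
  obtain ⟨C', _, _, hfin, V, hV, hV0, hVt⟩ := hred
  letI : NormedAlgebra ℚ_[p] C' := NormedAlgebra.restrictScalars ℚ_[p] C C'
  haveI : IsScalarTower ℚ_[p] C C' := IsScalarTower.of_algebraMap_eq fun x => rfl
  haveI : FiniteDimensional ℚ_[p] C' := FiniteDimensional.trans ℚ_[p] C C'
  haveI := Helper911.field_ultra p C'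
  haveI : CompleteSpace C' := FiniteDimensional.complete ℚ_[p] C'
  obtain ⟨rho, hd⟩ := Helper911.field_disc p C'
  have hcont : Continuous (baseChange C' χ) := by
    have h1 : Continuous (Units.map (algebraMap C C' : C →* C')) :=
      Continuous.units_map _ (continuous_algebraMap C C')
    exact h1.comp hχ
  have hc := conv_continuous hcont
  obtain ⟨i, j, h, m, hm⟩ := Helper911.sl_main p hd (Helper911.pull (conv (baseChange C' χ)))
    (Helper911.pull_continuous hc) (Helper911.subRep hc ((subrep_iff _ V).1 hV)) hV0 (by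
      by_contra hcon
      push Not at hcon
      exact hVt (le_antisymm hV.1 fun f hf =>
        hcon f ((Helper911.mem_PS_iff hc f).1 ((ps_iff _ f).1 hf))))
  refine ⟨i, j, h, 1 - ((m : ℤ) + ((j : ℤ) - (i : ℤ))), by omega, fun x => ?_⟩
  have h1 : algebraMap C C' ((χ (coroot i j h.ne x) : Cˣ) : C)
      = algebraMap C C' (((algebraMap ℚ_[p] C (x : ℚ_[p])) ^ m)⁻¹) := by
    have h2 : ((baseChange C' χ (coroot i j h.ne x) : C'ˣ) : C')
        = ((algebraMap ℚ_[p] C' (x : ℚ_[p])) ^ m)⁻¹ := hm x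
    rw [map_inv₀, map_pow]
    exact h2
  have h3 := (algebraMap C C').injective h1
  have hx : (algebraMap ℚ_[p] C (x : ℚ_[p])) ≠ 0 := by
    rw [Ne, map_eq_zero]; exact x.ne_zero
  rw [h3, halfSum_coroot i j h x, Units.val_zpow_eq_zpow_val, map_zpow₀, ← zpow_natCast,
    ← zpow_neg, ← zpow_neg, ← zpow_neg_one, ← zpow_add₀ hx, ← zpow_add₀ hx]
  congr 1
  ring

end Pool.Agent.Results.MP_f399a8_nt.SchneiderSLn
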